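import Mathlib
import Pool.Agent.LeoG.AlgStmts
import Pool.Agent.Helper79_LeoK.Twi

/-!
# Squad leog, module TWG, part A: local lemmas, Hilbert 90 with cube roots of unity
-/

set_option autoImplicit false

open NumberField IsDedekindDomain WithZero Module
open Pool.Agent.Helper85_Leo Pool.Agent.Leo3 Pool.Agent.LeoK Pool.Agent.LeoK.H79

namespace Pool.Agent.LeoG.H67

/-! ### Going down in Galois extensions of `3`-power degree -/

section down

variable {K L : Type} [Field K] [Field L] [Algebra K L] [FiniteDimensional K L] [IsGalois K L]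

theorem odd_fix {j : ℕ} (h3 : finrank K L = 3 ^ j) (φ : L →+* Om) (t : Om) (ht : InLoc φ t)
    (ρ : Om ≃ₐ[ℚ_[3]] Om) (hρ : FixF (φ.comp (algebraMap K L)) ρ) (h2 : ρ (ρ t) = t) :
    ρ t = t := by
  have h5 : ρ ^ 2 ∈ MulAction.stabilizer (Om ≃ₐ[ℚ_[3]] Om) t := by
    rw [MulAction.mem_stabilizer_iff]
    show (ρ ^ 2) t = t
    rw [pow_two]
    exact h2
  have h6 : ρ ^ (3 ^ j) ∈ MulAction.stabilizer (Om ≃ₐ[ℚ_[3]] Om) t := by
    rw [MulAction.mem_stabilizer_iff]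
    exact ht _ (pow_fix h3 φ ρ hρ)
  obtain ⟨m, hm⟩ : Odd (3 ^ j) := Odd.pow (by decide)
  have h7 : ρ ∈ MulAction.stabilizer (Om ≃ₐ[ℚ_[3]] Om) t := by
    have h8 : ρ = ((ρ ^ 2) ^ m)⁻¹ * ρ ^ (3 ^ j) := by
      rw [hm, pow_add, pow_mul, pow_one]
      group
    rw [h8]
    exact Subgroup.mul_mem _ (Subgroup.inv_mem _ (Subgroup.pow_mem _ h5 m)) h6
  exact h7

/-- local cube roots of unity go down. -/
theorem mu_down {j : ℕ} (h3 : finrank K L = 3 ^ j) (φ : L →+* Om) (t : Om) (ht : InLoc φ t)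
    (ht3 : t ^ 3 = 1) : InLoc (φ.comp (algebraMap K L)) t := by
  intro ρ hρ
  by_cases hne : t = 1
  · rw [hne, map_one]
  apply odd_fix h3 φ t ht ρ hρ
  have hs : 1 + t + t ^ 2 = 0 := by
    have : (t - 1) * (1 + t + t ^ 2) = 0 := by
      linear_combination ht3
    exact (mul_eq_zero.1 this).resolve_left (sub_ne_zero.2 hne)
  have hu3 : (ρ t) ^ 3 = 1 := by rw [← map_pow, ht3, map_one]
  have hu1 : ρ t ≠ 1 := by
    intro h
    exact hne (ρ.injective (by rw [h, map_one]))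
  have hu : (ρ t - t) * (ρ t - t ^ 2) = 0 := by
    have : (ρ t - 1) * ((ρ t - t) * (ρ t - t ^ 2)) = 0 := by
      linear_combination hu3 - ht3 - ((ρ t) ^ 2 - (ρ t) * t) * hs
    exact (mul_eq_zero.1 this).resolve_left (sub_ne_zero.2 hu1)
  rcases mul_eq_zero.1 hu with h | h
  · have h2 : ρ t = t := sub_eq_zero.1 h
    rw [h2, h2]
  · have h2 : ρ t = t ^ 2 := sub_eq_zero.1 h
    rw [h2, map_pow, h2]
    linear_combination t * ht3

end down

/-- `Three` goes up. -/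
theorem three_up {k M : Type} [Field k] [Field M] [Algebra k M] [FiniteDimensional k M]
    [IsGalois k M] {j : ℕ} (h3 : finrank k M = 3 ^ j) {m : k} (hT : Three k m) :
    Three M (algebraMap k M m) := by
  intro φ y hy hy2
  refine hT (φ.comp (algebraMap k M)) y ?_ hy2
  intro ρ hρ
  apply odd_fix h3 φ y hy ρ hρ
  have h1 : (ρ y) ^ 2 = y ^ 2 := by
    rw [← map_pow, hy2, map_neg]
    congr 1
    exact hρ m
  rcases sq_eq_sq_iff_eq_or_eq_neg.1 h1 with h | h
  · rw [h, h]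
  · rw [h, map_neg, h, neg_neg]

/-! ### Hilbert 90 -/

section descend

variable {K L : Type} [Field K] [Field L] [Algebra K L] [FiniteDimensional K L]

/-- a fixed class with `e τ e = 1` contains an element below. -/
theorem descend' [IsGalois K L] (τ : L ≃+* L) (hττ : ∀ x, τ (τ x) = x)
    (hcomm : ∀ (σ : L ≃ₐ[K] L) (x : L), τ (σ x) = σ (τ x))
    (hmu : ∀ x : L, x ^ 3 = 1 → x * τ x = 1 → x = 1) (e : L) (he : e * τ e = 1)
    (h : ∀ σ : L ≃ₐ[K] L, ∃ c : L, c ≠ 0 ∧ σ e = e * c ^ 3) :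
    ∃ (z : K) (y : L), z ≠ 0 ∧ y ≠ 0 ∧ algebraMap K L z = e * y ^ 3 ∧
      ∀ σ : L ≃ₐ[K] L, σ (y * τ y) = y * τ y := by
  have he0 : e ≠ 0 := by
    rintro rfl
    rw [zero_mul] at he
    exact zero_ne_one he
  have h' : ∀ σ : L ≃ₐ[K] L, ∃ c : L, c ≠ 0 ∧ σ e = e * c ^ 3 ∧ c * τ c = 1 := by
    intro σ
    obtain ⟨c, hc0, hc⟩ := h σ
    -- the norm of `c` is a cube root of unity
    have h1 : (c * τ c) ^ 3 = 1 := by
      have h2 : σ e * τ (σ e) = 1 := by
        rw [hcomm, ← map_mul, he, map_one]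
      rw [hc, map_mul, map_pow] at h2
      have h3 : (e * τ e) * (c * τ c) ^ 3 = 1 := by
        rw [← h2]
        ring
      rwa [he, one_mul] at h3
    have hζτ : τ (c * τ c) = c * τ c := by
      rw [map_mul, hττ, mul_comm]
    refine ⟨c * (c * τ c), ?_, ?_, ?_⟩
    · refine mul_ne_zero hc0 (mul_ne_zero hc0 ?_)
      exact (map_ne_zero τ).2 hc0
    · rw [hc, mul_pow, h1, mul_one]
    · rw [map_mul, hζτ]
      calc c * (c * τ c) * (τ c * (c * τ c)) = (c * τ c) ^ 3 := by ring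
        _ = 1 := h1
  choose c hc0 hc hcτ using h'
  let f : (L ≃ₐ[K] L) → Lˣ := fun σ => Units.mk0 (c σ) (hc0 σ)
  have hco : groupCohomology.IsMulCocycle₁ f := by
    intro σ σ'
    apply Units.ext
    show c (σ * σ') = σ (c σ') * c σ
    have hne : σ (c σ') * c σ ≠ 0 := by
      apply mul_ne_zero _ (hc0 σ)
      intro h
      exact hc0 σ' (by simpa using h)
    have h1 : (σ * σ') e = e * (σ (c σ') * c σ) ^ 3 := by
      show σ (σ' e) = _
      rw [hc σ', map_mul, map_pow, hc σ]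
      ring
    rw [hc (σ * σ')] at h1
    have h2 := mul_left_cancel₀ he0 h1
    have h3 : (c (σ * σ') / (σ (c σ') * c σ)) = 1 := by
      apply hmu
      · rw [div_pow, h2, div_self (pow_ne_zero 3 hne)]
      · rw [map_div₀, map_mul, hcomm, div_mul_div_comm, hcτ]
        have h4 : σ (c σ') * c σ * (σ (τ (c σ')) * τ (c σ)) = 1 := by
          calc σ (c σ') * c σ * (σ (τ (c σ')) * τ (c σ))
              = σ (c σ' * τ (c σ')) * (c σ * τ (c σ)) := by rw [map_mul]; ring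
            _ = 1 := by rw [hcτ, hcτ, map_one, one_mul]
        rw [h4, div_one]
    rwa [div_eq_one_iff_eq hne] at h3
  obtain ⟨y, hy⟩ := groupCohomology.isMulCoboundary₁_of_isMulCocycle₁_of_aut_to_units f hco
  have hy' : ∀ σ : L ≃ₐ[K] L, σ (y : L) = c σ * y := by
    intro σ
    have h1 := congrArg Units.val (hy σ)
    have h2 : σ (y : L) / y = c σ := by
      rw [Units.val_div_eq_div_val] at h1
      exact h1
    rw [← h2]
    exact (div_mul_cancel₀ _ y.ne_zero).symm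
  have hfix : ∀ σ : L ≃ₐ[K] L, σ (e * ((y : L)⁻¹) ^ 3) = e * ((y : L)⁻¹) ^ 3 := by
    intro σ
    rw [map_mul, map_pow, map_inv₀, hy' σ, hc σ]
    have h1 := hc0 σ
    have h2 := y.ne_zero
    field_simp
  have hbot := (IsGalois.mem_bot_iff_fixed (F := K) (E := L) _).mpr hfix
  obtain ⟨z, hz⟩ := IntermediateField.mem_bot.mp hbot
  refine ⟨z, (y : L)⁻¹, ?_, inv_ne_zero y.ne_zero, hz, ?_⟩
  · rintro rfl
    rw [map_zero] at hz
    exact mul_ne_zero he0 (pow_ne_zero 3 (inv_ne_zero y.ne_zero)) hz.symm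
  · intro σ
    rw [map_mul, map_inv₀, map_inv₀, map_inv₀, ← hcomm, hy', map_mul, mul_inv, mul_inv]
    have h1 := hcτ σ
    have h2 : (c σ)⁻¹ * (τ (c σ))⁻¹ = 1 := by rw [← mul_inv, h1, inv_one]
    calc (c σ)⁻¹ * (y : L)⁻¹ * ((τ (c σ))⁻¹ * (τ (y : L))⁻¹)
        = ((c σ)⁻¹ * (τ (c σ))⁻¹) * ((y : L)⁻¹ * (τ (y : L))⁻¹) := by ring
      _ = (y : L)⁻¹ * (τ (y : L))⁻¹ := by rw [h2, one_mul]

end descend

end Pool.Agent.LeoG.H67
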