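import Mathlib
import Pool.Agent.Helper67_LeoG.TwgA

/-!
# Squad leog, module TWG: the relative vanishing goes up along Galois extensions of 3-power degree

Without a condition on local cube roots of unity.
-/

set_option autoImplicit false

open NumberField IsDedekindDomain WithZero Module
open Pool.Agent.Helper85_Leo Pool.Agent.Leo3 Pool.Agent.LeoK Pool.Agent.LeoK.H79

namespace Pool.Agent.LeoG.H67

theorem quad_eq {K L : Type} [Field K] [Field L] [Algebra K L] [FiniteDimensional K L] [CharZero K]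
    (h2 : finrank K L = 2) {σ τ : L ≃ₐ[K] L} (hσ : σ ≠ 1) (hτ : τ ≠ 1) : σ = τ := by
  classical
  have hg := quad_galois h2
  have hc : Fintype.card (L ≃ₐ[K] L) = 2 := by
    rw [← Nat.card_eq_fintype_card, IsGalois.card_aut_eq_finrank, h2]
  have hu : (Finset.univ : Finset (L ≃ₐ[K] L)) = {1, τ} := by
    symm
    apply Finset.eq_univ_of_card
    rw [Finset.card_pair hτ.symm, hc]
  have h1 : σ ∈ (Finset.univ : Finset (L ≃ₐ[K] L)) := Finset.mem_univ σ
  rw [hu, Finset.mem_insert, Finset.mem_singleton] at h1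
  exact h1.resolve_left hσ

/-! ### The local part -/

section loc

variable {k K M L : Type} [Field k] [Field K] [Field M] [Field L] [Algebra k K] [Algebra k M]
  [Algebra k L] [Algebra K L] [Algebra M L] [IsScalarTower k K L] [IsScalarTower k M L]

/-- An automorphism of `L / k` which is not the identity on `K` has `3 ^ j`-th power `τ`. -/
theorem pow_tau [CharZero k] [FiniteDimensional k K] [FiniteDimensional k M]
    [FiniteDimensional k L] [FiniteDimensional K L] [FiniteDimensional M L] [IsGalois k M]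
    [IsGalois k L] [IsGalois K L] [IsGalois M L] [IsGalois k K] {j : ℕ} (h2 : finrank k K = 2)
    (h3 : finrank k M = 3 ^ j)
    (hKL : finrank K L = 3 ^ j) (hML : finrank M L = 2) (τ : L ≃ₐ[M] L) (τ₀ : K ≃ₐ[k] K)
    (hτ₀ : ∀ x : K, algebraMap K L (τ₀ x) = τ (algebraMap K L x)) (hτ₀1 : τ₀ ≠ 1)
    (g : L ≃ₐ[k] L) (hg : ∃ r : K, g (algebraMap K L r) ≠ algebraMap K L r) (x : L) :
    (g ^ (3 ^ j)) x = τ x := by
  -- restrictions
  obtain ⟨gK, hgK⟩ : ∃ gK : K ≃ₐ[k] K, ∀ x, algebraMap K L (gK x) = g (algebraMap K L x) :=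
    ⟨g.restrictNormal K, fun x => AlgEquiv.restrictNormal_commutes g K x⟩
  obtain ⟨gM, hgM⟩ : ∃ gM : M ≃ₐ[k] M, ∀ x, algebraMap M L (gM x) = g (algebraMap M L x) :=
    ⟨g.restrictNormal M, fun x => AlgEquiv.restrictNormal_commutes g M x⟩
  have hgK1 : gK ≠ 1 := by
    rintro rfl
    obtain ⟨r, hr⟩ := hg
    exact hr (hgK r).symm
  have hpK : ∀ (n : ℕ) (x : K), (g ^ n) (algebraMap K L x) = algebraMap K L ((gK ^ n) x) := by
    intro n
    induction n with
    | zero => intro x; rfl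
    | succ n ih =>
      intro x
      rw [pow_succ, pow_succ]
      show (g ^ n) (g (algebraMap K L x)) = algebraMap K L ((gK ^ n) (gK x))
      rw [← hgK, ih]
  have hpM : ∀ (n : ℕ) (x : M), (g ^ n) (algebraMap M L x) = algebraMap M L ((gM ^ n) x) := by
    intro n
    induction n with
    | zero => intro x; rfl
    | succ n ih =>
      intro x
      rw [pow_succ, pow_succ]
      show (g ^ n) (g (algebraMap M L x)) = algebraMap M L ((gM ^ n) (gM x))
      rw [← hgM, ih]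
  have hgM3 : gM ^ (3 ^ j) = 1 := by
    have hc : Nat.card (M ≃ₐ[k] M) = 3 ^ j := by rw [IsGalois.card_aut_eq_finrank, h3]
    rw [← hc]
    exact pow_card_eq_one'
  have hgK3 : gK ^ (3 ^ j) = τ₀ := by
    obtain ⟨m, hm⟩ : Odd (3 ^ j) := Odd.pow (by decide)
    rw [hm, pow_succ, pow_mul, quad_sq h2 gK, one_pow, one_mul]
    exact quad_eq h2 hgK1 hτ₀1
  let f : L ≃+* L := ((g ^ (3 ^ j) : L ≃ₐ[k] L) : L ≃+* L).trans (τ.symm : L ≃+* L)
  have hf : ∀ y : L, f y = τ.symm ((g ^ (3 ^ j)) y) := fun y => rfl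
  have h1 : f x = x := by
    refine fix_both (K := K) (M := M) j hKL hML f ?_ ?_ x
    · intro y
      rw [hf, hpK, hgK3, hτ₀, AlgEquiv.symm_apply_apply]
    · intro y
      rw [hf, hpM, hgM3]
      exact τ.symm.commutes y
  rw [hf, AlgEquiv.symm_apply_eq] at h1
  exact h1

/-- a local cube root of `z₀` in the completion of `L` can be chosen in the completion of `K`. -/
theorem cube_desc [CharZero k] [FiniteDimensional k K] [FiniteDimensional k M]
    [FiniteDimensional k L] [FiniteDimensional K L] [FiniteDimensional M L] [IsGalois k M]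
    [IsGalois k L] [IsGalois K L] [IsGalois M L] [IsGalois k K] {j : ℕ} (h2 : finrank k K = 2)
    (h3 : finrank k M = 3 ^ j)
    (hKL : finrank K L = 3 ^ j) (hML : finrank M L = 2) (τ : L ≃ₐ[M] L) (τ₀ : K ≃ₐ[k] K)
    (hτ₀ : ∀ x : K, algebraMap K L (τ₀ x) = τ (algebraMap K L x)) (hτ₀1 : τ₀ ≠ 1)
    (hcomm : ∀ (σ : L ≃ₐ[K] L) (x : L), τ (σ x) = σ (τ x)) (r : K) (hr : r ≠ 0)
    (ψ : L →+* Om)
    (hmum : ∀ t : Om, InLoc (ψ.comp (algebraMap K L)) t → t ^ 3 = 1 → t ≠ 1 →
      InLoc ((ψ.comp (algebraMap K L)).comp (algebraMap k K)) t ∧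
        ∃ ρ : Om ≃ₐ[ℚ_[3]] Om, FixF ((ψ.comp (algebraMap K L)).comp (algebraMap k K)) ρ ∧
          ρ ((ψ.comp (algebraMap K L)) r) = -(ψ.comp (algebraMap K L)) r)
    (z : K) (d : k) (hzd : z * τ₀ z = (algebraMap k K d) ^ 3)
    (t : Om) (ht : InLoc ψ t) (ht3 : t ^ 3 = ψ (algebraMap K L z)) :
    ∃ s : Om, InLoc (ψ.comp (algebraMap K L)) s ∧ s ^ 3 = ψ (algebraMap K L z) := by
  by_cases h0 : z = 0
  · refine ⟨0, fun ρ _ => map_zero _, ?_⟩
    rw [h0, map_zero, map_zero]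
    norm_num
  have hψz : ψ (algebraMap K L z) ≠ 0 := by
    intro h
    apply h0
    apply (algebraMap K L).injective
    apply ψ.injective
    rw [h, map_zero, map_zero]
  have ht0 : t ≠ 0 := by
    rintro rfl
    apply hψz
    rw [← ht3]
    norm_num
  -- the ratio `ρ t / t`
  have hratio : ∀ s : Om, InLoc ψ s → s ^ 3 = ψ (algebraMap K L z) → ∀ ρ : Om ≃ₐ[ℚ_[3]] Om,
      FixF (ψ.comp (algebraMap K L)) ρ →
      InLoc (ψ.comp (algebraMap K L)) (ρ s / s) ∧ (ρ s / s) ^ 3 = 1 := by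
    intro s hs hs3 ρ hρ
    have h1 : InLoc ψ (ρ s / s) := by
      intro σ hσ
      rw [map_div₀, H11.inLoc_map ψ ρ hρ s hs σ hσ, hs σ hσ]
    have h4 : (ρ s / s) ^ 3 = 1 := by
      have h5 : ρ (s ^ 3) = s ^ 3 := by
        rw [hs3]
        exact hρ z
      rw [div_pow, ← map_pow, h5]
      apply div_self
      rw [hs3]
      exact hψz
    exact ⟨mu_down hKL ψ _ h1 h4, h4⟩
  by_cases hex : ∃ u : Om, InLoc (ψ.comp (algebraMap K L)) u ∧ u ^ 3 = 1 ∧ u ≠ 1
  · obtain ⟨u, hu, hu3, hu1⟩ := hex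
    obtain ⟨-, ρ₀, hρ₀, hρ₀r⟩ := hmum u hu hu3 hu1
    have hk : ∀ x : k, ψ (algebraMap k L x) =
        ((ψ.comp (algebraMap K L)).comp (algebraMap k K)) x := by
      intro x
      rw [IsScalarTower.algebraMap_apply k K L]
      rfl
    have hρ₀' : FixF (ψ.comp (algebraMap k L)) ρ₀ := by
      intro x
      show ρ₀ (ψ (algebraMap k L x)) = ψ (algebraMap k L x)
      rw [hk]
      exact hρ₀ x
    obtain ⟨g, hg⟩ := H11.exists_aut ψ ρ₀ hρ₀'
    have hgr : g (algebraMap K L r) ≠ algebraMap K L r := by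
      intro h
      have h1 := hg (algebraMap K L r)
      rw [h] at h1
      have h5 : ρ₀ (ψ (algebraMap K L r)) = -ψ (algebraMap K L r) := hρ₀r
      rw [h5] at h1
      have h6 : ψ (algebraMap K L r) = 0 := by
        have : (2 : Om) * ψ (algebraMap K L r) = 0 := by linear_combination -h1
        rcases mul_eq_zero.1 this with h7 | h7
        · exact absurd h7 two_ne_zero
        · exact h7
      apply hr
      apply (algebraMap K L).injective
      apply ψ.injective
      rw [h6, map_zero, map_zero]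
    -- the power of `ρ₀` which acts as `τ`
    let ρ₁ : Om ≃ₐ[ℚ_[3]] Om := ρ₀ ^ (3 ^ j)
    have hpow : ∀ (n : ℕ) (x : L), (ρ₀ ^ n) (ψ x) = ψ ((g ^ n) x) := by
      intro n
      induction n with
      | zero => intro x; rfl
      | succ n ih =>
        intro x
        rw [pow_succ, pow_succ]
        show (ρ₀ ^ n) (ρ₀ (ψ x)) = ψ ((g ^ n) (g x))
        rw [hg, ih]
    have hρ₁ : ∀ x : L, ρ₁ (ψ x) = ψ (τ x) := by
      intro x
      show (ρ₀ ^ (3 ^ j)) (ψ x) = ψ (τ x)
      rw [hpow, pow_tau h2 h3 hKL hML τ τ₀ hτ₀ hτ₀1 g ⟨r, hgr⟩]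
    have hρ₁k : FixF ((ψ.comp (algebraMap K L)).comp (algebraMap k K)) ρ₁ := by
      intro x
      rw [← hk, hρ₁]
      congr 1
      rw [IsScalarTower.algebraMap_apply k M L]
      exact τ.commutes _
    have hρ₁k' : FixF (ψ.comp (algebraMap k L)) ρ₁ := by
      intro x
      show ρ₁ (ψ (algebraMap k L x)) = ψ (algebraMap k L x)
      rw [hk]
      exact hρ₁k x
    -- cube roots of unity in the completion of `K`
    have hfixmu : ∀ v : Om, InLoc (ψ.comp (algebraMap K L)) v → v ^ 3 = 1 → ρ₁ v = v := by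
      intro v hv hv3
      by_cases hv1 : v = 1
      · rw [hv1, map_one]
      · exact (hmum v hv hv3 hv1).1 ρ₁ hρ₁k
    -- `ζ = t ρ₁(t) / d`
    have hd0 : ψ (algebraMap k L d) ≠ 0 := by
      intro h
      have h5 : d = 0 := by
        apply (algebraMap k L).injective
        apply ψ.injective
        rw [h, map_zero, map_zero]
      rw [h5, map_zero] at hzd
      have h6 : z * τ₀ z = 0 := by
        rw [hzd]
        norm_num
      rcases mul_eq_zero.1 h6 with h7 | h7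
      · exact h0 h7
      · exact h0 ((map_eq_zero τ₀).1 h7)
    have hnorm : ∀ s : Om, s ^ 3 = ψ (algebraMap K L z) →
        (s * ρ₁ s) ^ 3 = (ψ (algebraMap k L d)) ^ 3 := by
      intro s hs
      rw [mul_pow, ← map_pow, hs, hρ₁, ← hτ₀, ← map_mul, ← map_mul, hzd, map_pow, map_pow,
        ← IsScalarTower.algebraMap_apply k K L]
    have hρ₁t : InLoc ψ (ρ₁ t) := H11.inLoc_map ψ ρ₁ hρ₁k' t ht
    obtain ⟨ζ, hζ⟩ : ∃ ζ : Om, ζ = t * ρ₁ t / ψ (algebraMap k L d) := ⟨_, rfl⟩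
    have hζ3 : ζ ^ 3 = 1 := by
      rw [hζ, div_pow, hnorm t ht3]
      exact div_self (pow_ne_zero 3 hd0)
    have hζL : InLoc ψ ζ := by
      intro σ hσ
      rw [hζ, map_div₀, map_mul, ht σ hσ, hρ₁t σ hσ, hσ]
    have hζK := mu_down hKL ψ ζ hζL hζ3
    have hζρ := hfixmu ζ hζK hζ3
    -- the normalised cube root
    have hs3 : (t * ζ) ^ 3 = ψ (algebraMap K L z) := by
      rw [mul_pow, hζ3, mul_one, ht3]
    have hsL : InLoc ψ (t * ζ) := H83.inLoc_mul ht hζL
    have hsn : t * ζ * ρ₁ (t * ζ) = ψ (algebraMap k L d) := by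
      have h5 : t * ρ₁ t = ζ * ψ (algebraMap k L d) := by
        rw [hζ, div_mul_cancel₀ _ hd0]
      rw [map_mul, hζρ]
      calc t * ζ * (ρ₁ t * ζ) = (t * ρ₁ t) * ζ ^ 2 := by ring
        _ = ζ ^ 3 * ψ (algebraMap k L d) := by rw [h5]; ring
        _ = ψ (algebraMap k L d) := by rw [hζ3, one_mul]
    obtain ⟨s, hs⟩ : ∃ s : Om, s = t * ζ := ⟨_, rfl⟩
    rw [← hs] at hs3 hsL hsn
    have hs0 : s ≠ 0 := by
      rintro rfl
      apply hψz
      rw [← hs3]
      norm_num
    refine ⟨s, ?_, hs3⟩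
    intro ρ hρ
    obtain ⟨hξK, hξ3⟩ := hratio s hsL hs3 ρ hρ
    obtain ⟨ξ, hξ⟩ : ∃ ξ : Om, ξ = ρ s / s := ⟨_, rfl⟩
    rw [← hξ] at hξK hξ3
    have hρs : ρ s = ξ * s := by rw [hξ, div_mul_cancel₀ _ hs0]
    -- `ρ` and `ρ₁` commute on the completion of `L`
    have hcm : ρ (ρ₁ s) = ρ₁ (ρ s) := by
      obtain ⟨σ, hσ⟩ := H11.exists_aut ψ ρ hρ
      have h5 := hsL (((ρ.trans ρ₁).trans ρ.symm).trans ρ₁.symm) (fun x => by
        rw [AlgEquiv.trans_apply, AlgEquiv.trans_apply, AlgEquiv.trans_apply, hσ, hρ₁, hcomm,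
          ← hσ, AlgEquiv.symm_apply_apply, ← hρ₁, AlgEquiv.symm_apply_apply])
      rw [AlgEquiv.trans_apply, AlgEquiv.trans_apply, AlgEquiv.trans_apply,
        AlgEquiv.symm_apply_eq, AlgEquiv.symm_apply_eq] at h5
      exact h5.symm
    have h6 : ρ (s * ρ₁ s) = s * ρ₁ s := by
      rw [hsn, hk]
      exact hρ (algebraMap k K d)
    rw [map_mul, hcm, hρs, map_mul, hfixmu ξ hξK hξ3] at h6
    have h7 : ξ ^ 2 = 1 := by
      have h8 : ρ₁ s ≠ 0 := (map_ne_zero ρ₁).2 hs0
      have h9 : (s * ρ₁ s) * (ξ ^ 2 - 1) = 0 := by linear_combination h6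
      rcases mul_eq_zero.1 h9 with h10 | h10
      · exact absurd h10 (mul_ne_zero hs0 h8)
      · exact sub_eq_zero.1 h10
    have h8 : ξ = 1 := by
      calc ξ = ξ ^ 3 / ξ ^ 2 := by
            have : ξ ≠ 0 := by
              rintro rfl
              norm_num at h7
            field_simp
        _ = 1 := by rw [hξ3, h7, div_one]
    rw [hρs, h8, one_mul]
  · push Not at hex
    refine ⟨t, ?_, ht3⟩
    intro ρ hρ
    obtain ⟨h1, h4⟩ := hratio t ht ht3 ρ hρ
    have h5 := hex _ h1 h4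
    rwa [div_eq_one_iff_eq ht0] at h5

end loc

/-- TWG. -/
theorem twg (hmum : MumStmt) : TwgStmt := by
  intro k K M L _ _ _ _ _ _ _ _ _ _ _ _ _ _ _ _ j m r h2 h3 hML hT hr hnsq hThree hW
  have fkK : FiniteDimensional k K := Module.Finite.of_restrictScalars_finite ℚ k K
  have fkM : FiniteDimensional k M := Module.Finite.of_restrictScalars_finite ℚ k M
  have fkL : FiniteDimensional k L := Module.Finite.of_restrictScalars_finite ℚ k L
  have fKL : FiniteDimensional K L := Module.Finite.of_restrictScalars_finite ℚ K L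
  have fML : FiniteDimensional M L := Module.Finite.of_restrictScalars_finite ℚ M L
  have rkL : finrank k L = 3 ^ j * 2 := by
    rw [← finrank_mul_finrank k M L, h3, hML]
  have rKL : finrank K L = 3 ^ j := by
    have h := finrank_mul_finrank k K L
    rw [rkL, h2, mul_comm] at h
    exact Nat.eq_of_mul_eq_mul_right (by norm_num) h
  have gkL : IsGalois k L := comp_galois (K := K) (M := M) j h2 h3 rkL
  have gKL : IsGalois K L := IsGalois.tower_top_of_isGalois k K L
  have gML : IsGalois M L := IsGalois.tower_top_of_isGalois k M L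
  have gkK : IsGalois k K := quad_galois h2
  have hThreeM : Three M (algebraMap k M m) := three_up h3 hThree
  refine ⟨hThreeM, ?_⟩
  have hr0 : r ≠ 0 := by
    rintro rfl
    apply hnsq 0
    apply (algebraMap k K).injective
    rw [← hr]
    simp
  obtain ⟨τ, hτ⟩ := quad_exists hML
  have hττ : ∀ x : L, τ (τ x) = x := by
    intro x
    have h := congrArg (fun f : L ≃ₐ[M] L => f x) (quad_sq hML τ)
    rw [pow_two] at h
    exact h
  -- restriction of `τ` to `K`
  let τ₀ : K ≃ₐ[k] K := (τ.restrictScalars k).restrictNormal K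
  have hτ₀ : ∀ x : K, algebraMap K L (τ₀ x) = τ (algebraMap K L x) := by
    intro x
    exact AlgEquiv.restrictNormal_commutes (τ.restrictScalars k) K x
  have hτM : ∀ x : M, τ (algebraMap M L x) = algebraMap M L x := fun x => τ.commutes x
  have hτ₀1 : τ₀ ≠ 1 := by
    intro h
    apply hτ
    apply AlgEquiv.ext
    intro x
    refine fix_both (K := K) (M := M) j rKL hML (τ : L ≃+* L) ?_ hτM x
    intro y
    have h1 := hτ₀ y
    rw [h] at h1
    exact h1.symm
  have hτ₀τ₀ : ∀ x : K, τ₀ (τ₀ x) = x := by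
    intro x
    apply (algebraMap K L).injective
    rw [hτ₀, hτ₀, hττ]
  -- `τ r = - r`
  have hτr : τ (algebraMap K L r) = -algebraMap K L r := by
    have h1 : (τ (algebraMap K L r)) ^ 2 = (algebraMap K L r) ^ 2 := by
      rw [← map_pow, ← map_pow, hr, ← IsScalarTower.algebraMap_apply k K L,
        IsScalarTower.algebraMap_apply k M L, hτM]
    rcases sq_eq_sq_iff_eq_or_eq_neg.1 h1 with h | h
    · exfalso
      have h4 : τ₀ r = r := by
        apply (algebraMap K L).injective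
        rw [hτ₀, h]
      obtain ⟨x, hx⟩ := quad_fixed h2 τ₀ hτ₀1 r h4
      apply hnsq x
      apply (algebraMap k K).injective
      rw [map_pow, hx, hr]
    · exact h
  -- cube roots of unity in `L`
  have hmu : ∀ x : L, x ^ 3 = 1 → x * τ x = 1 → x = 1 := by
    intro x hx3 hxτ
    by_contra hx1
    have hs : 1 + x + x ^ 2 = 0 := by
      have : (x - 1) * (1 + x + x ^ 2) = 0 := by
        linear_combination hx3
      exact (mul_eq_zero.1 this).resolve_left (sub_ne_zero.2 hx1)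
    have hx0 : x ≠ 0 := by
      rintro rfl
      rw [zero_mul] at hxτ
      exact zero_ne_one hxτ
    have hτx : τ x = x ^ 2 := by
      have h5 : x * (τ x - x ^ 2) = 0 := by linear_combination hxτ - hx3
      rcases mul_eq_zero.1 h5 with h6 | h6
      · exact absurd h6 hx0
      · exact sub_eq_zero.1 h6
    -- `δ = x - x²`, `δ² = -3`
    have hδ : (x - x ^ 2) ^ 2 = -3 := by linear_combination (x ^ 2 - 3 * x + 3) * hs
    have hτδ : τ (x - x ^ 2) = -(x - x ^ 2) := by
      rw [map_sub, map_pow, hτx]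
      linear_combination (-x) * hx3
    have h7 : τ ((x - x ^ 2) * algebraMap K L r) = (x - x ^ 2) * algebraMap K L r := by
      rw [map_mul, hτδ, hτr]
      ring
    obtain ⟨y, hy⟩ := quad_fixed hML τ hτ _ h7
    obtain ⟨φ⟩ := H83.exists_emb M
    apply hThreeM φ (φ (y / 3)) (H83.inLoc_self φ _)
    rw [← map_pow, ← map_neg]
    congr 1
    apply (algebraMap M L).injective
    rw [map_pow, map_div₀, hy, map_neg, map_ofNat, div_pow, mul_pow, hδ, ← map_pow, hr,
      ← IsScalarTower.algebraMap_apply k K L, ← IsScalarTower.algebraMap_apply k M L, map_mul,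
      map_ofNat]
    ring
  -- commutation
  have hcomm : ∀ (σ : L ≃ₐ[K] L) (x : L), τ (σ x) = σ (τ x) := by
    intro σ x
    let σ₀ : M ≃ₐ[k] M := (σ.restrictScalars k).restrictNormal M
    have hσ₀ : ∀ x : M, algebraMap M L (σ₀ x) = σ (algebraMap M L x) := by
      intro x
      exact AlgEquiv.restrictNormal_commutes (σ.restrictScalars k) M x
    let g : L ≃+* L := (((σ : L ≃+* L).trans (τ : L ≃+* L)).trans (σ.symm : L ≃+* L)).trans
      (τ.symm : L ≃+* L)
    have hg : ∀ y : L, g y = τ.symm (σ.symm (τ (σ y))) := fun y => rfl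
    have h1 : g x = x := by
      refine fix_both (K := K) (M := M) j rKL hML g ?_ ?_ x
      · intro y
        rw [hg, σ.commutes, ← hτ₀, AlgEquiv.commutes, hτ₀, AlgEquiv.symm_apply_apply]
      · intro y
        rw [hg, ← hσ₀, hτM, hσ₀, AlgEquiv.symm_apply_apply, AlgEquiv.commutes]
    rw [hg, AlgEquiv.symm_apply_eq, AlgEquiv.symm_apply_eq] at h1
    exact h1
  -- the group of elements
  let A : L → Prop := fun z => (∃ c : L, τ c = c ∧ z * τ z = c ^ 3) ∧ ValCube3 z ∧ LocCube z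
  have hAmul : ∀ x y, A x → A y → A (x * y) := by
    rintro x y ⟨⟨c, hc, hc3⟩, hv, hl⟩ ⟨⟨d, hd, hd3⟩, hv', hl'⟩
    refine ⟨⟨c * d, by rw [map_mul, hc, hd], ?_⟩, valCube3_mul hv hv', H83.locCube_mul hl hl'⟩
    rw [map_mul, mul_pow, ← hc3, ← hd3]
    ring
  have hAinv : ∀ x, A x → A x⁻¹ := by
    rintro x ⟨⟨c, hc, hc3⟩, hv, hl⟩
    refine ⟨⟨c⁻¹, by rw [map_inv₀, hc], ?_⟩, valCube3_inv hv, H83.locCube_inv hl⟩
    rw [map_inv₀, inv_pow, ← hc3, mul_inv]
  have hAcub : ∀ x, x ≠ 0 → A (x ^ 3) := by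
    intro x _
    refine ⟨⟨x * τ x, by rw [map_mul, hττ, mul_comm], by rw [map_pow, mul_pow]⟩,
      valCube3_cube x, ?_⟩
    intro φ
    exact ⟨φ x, H83.inLoc_self φ x, by rw [map_pow]⟩
  have hAσ : ∀ (σ : L ≃ₐ[K] L) (x : L), A x → A (σ x) := by
    rintro σ x ⟨⟨c, hc, hc3⟩, hv, hl⟩
    refine ⟨⟨σ c, by rw [hcomm, hc], by rw [hcomm, ← map_mul, hc3, map_pow]⟩,
      valCube3_map hv (σ : L ≃+* L), H83.locCube_map hl (σ : L ≃+* L)⟩
  have hAτ : ∀ x : L, A x → A (τ x) := by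
    rintro x ⟨⟨c, hc, hc3⟩, hv, hl⟩
    refine ⟨⟨c, hc, ?_⟩, valCube3_map hv (τ : L ≃+* L), H83.locCube_map hl (τ : L ≃+* L)⟩
    rw [hττ, mul_comm, hc3]
  have hG : IsPGroup 3 (L ≃ₐ[K] L) := IsPGroup.of_card (n := j)
    (by rw [IsGalois.card_aut_eq_finrank, rKL])
  intro z hz0 hzN hzv hzl
  by_contra hnc
  push Not at hnc
  have hzA : A z := by
    obtain ⟨c, hc⟩ := hzN
    refine ⟨⟨algebraMap M L c, hτM c, ?_⟩, hzv, hzl⟩
    rw [← quad_norm hML τ hτ z, hc, map_pow]
  obtain ⟨e₁, he₁0, he₁A, he₁c, he₁f⟩ :=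
    exists_class hG A hAmul hAinv hAcub hAσ z hz0 hzA hnc
  have hτe₁ : τ e₁ ≠ 0 := (map_ne_zero τ).2 he₁0
  -- `e = e₁ / τ e₁`
  obtain ⟨e, he⟩ : ∃ e : L, e = e₁ * (τ e₁)⁻¹ := ⟨_, rfl⟩
  have he0 : e ≠ 0 := by
    rw [he]
    exact mul_ne_zero he₁0 (inv_ne_zero hτe₁)
  have heτ : e * τ e = 1 := by
    rw [he, map_mul, map_inv₀, hττ]
    field_simp
  have heA : A e := by
    rw [he]
    exact hAmul _ _ he₁A (hAinv _ (hAτ _ he₁A))
  have hec : ∀ t : L, t ^ 3 ≠ e := by
    intro t ht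
    obtain ⟨⟨c, -, hc⟩, -, -⟩ := he₁A
    -- `e = e₁² / c³`
    have h5 : e₁ ^ 2 = t ^ 3 * c ^ 3 := by
      rw [ht, he, ← hc]
      field_simp
    have ht0 : t ≠ 0 := by
      rintro rfl
      apply he0
      rw [← ht]
      norm_num
    have hc0 : c ≠ 0 := by
      rintro rfl
      apply mul_ne_zero he₁0 hτe₁
      rw [hc]
      norm_num
    apply he₁c (e₁ / (t * c))
    rw [div_pow, mul_pow, ← h5]
    field_simp
  have hef : ∀ σ : L ≃ₐ[K] L, ∃ c : L, c ≠ 0 ∧ σ e = e * c ^ 3 := by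
    intro σ
    obtain ⟨c, hc0, hc⟩ := he₁f σ
    have hτc : τ c ≠ 0 := (map_ne_zero τ).2 hc0
    refine ⟨c * (τ c)⁻¹, mul_ne_zero hc0 (inv_ne_zero hτc), ?_⟩
    rw [he, map_mul, map_inv₀, ← hcomm, hc, map_mul, map_pow]
    field_simp
  obtain ⟨z₀, y, hz₀, hy, hzy, hyσ⟩ := descend' (K := K) (τ : L ≃+* L) hττ hcomm hmu e heτ hef
  have hyσ' : ∀ σ : L ≃ₐ[K] L, σ (y * τ y) = y * τ y := hyσ
  have hA₀ : A (algebraMap K L z₀) := by
    rw [hzy]
    exact hAmul _ _ heA (hAcub y hy)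
  obtain ⟨-, hv₀, hl₀⟩ := hA₀
  -- the norm of `z₀`
  have hN' : ∃ d : k, z₀ * τ₀ z₀ = (algebraMap k K d) ^ 3 := by
    obtain ⟨dK, hdK⟩ := IntermediateField.mem_bot.mp
      ((IsGalois.mem_bot_iff_fixed (F := K) (E := L) _).mpr hyσ')
    have hfix : τ₀ dK = dK := by
      apply (algebraMap K L).injective
      rw [hτ₀, hdK, map_mul, hττ, mul_comm]
    obtain ⟨d, hd⟩ := quad_fixed h2 τ₀ hτ₀1 dK hfix
    refine ⟨d, ?_⟩
    apply (algebraMap K L).injective
    rw [hd, map_mul, hτ₀, map_pow, hdK, hzy, map_mul, map_pow]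
    calc e * y ^ 3 * (τ e * τ y ^ 3) = (e * τ e) * (y * τ y) ^ 3 := by ring
      _ = (y * τ y) ^ 3 := by rw [heτ, one_mul]
  obtain ⟨d, hd⟩ := hN'
  have hN : ∃ d : k, Algebra.norm k z₀ = d ^ 3 := by
    refine ⟨d, ?_⟩
    apply (algebraMap k K).injective
    rw [quad_norm h2 τ₀ hτ₀1, hd, map_pow]
  -- local condition
  have hloc : LocCube z₀ := by
    intro φ
    obtain ⟨ψ, hψ⟩ := H83.exists_ext K L φ
    obtain ⟨t, ht, ht3⟩ := hl₀ ψ
    rw [← hψ]
    exact cube_desc h2 h3 rKL hML τ τ₀ hτ₀ hτ₀1 hcomm r hr0 ψ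
      (fun u hu hu3 hu1 => hmum k K m r h2 hr hnsq hThree (ψ.comp (algebraMap K L)) u hu hu3 hu1)
      z₀ d hd t ht ht3
  -- valuations
  have hval : ValCube3 z₀ := by
    intro q hq
    obtain ⟨w, hw, hw3⟩ := exists_above (L := L) q hq
    have hp := val_pow q w hw z₀
    obtain ⟨x, hx⟩ := hv₀ w hw3
    rw [hx] at hp
    by_cases h3e : 3 ∣ w.asIdeal.ramificationIdx (𝓞 K)
    · have hwp := w.isPrime
      have hPp : (w.asIdeal.under (𝓞 M)).IsPrime := inferInstance
      have hP0 : w.asIdeal.under (𝓞 M) ≠ ⊥ := by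
        intro h
        exact w.ne_bot (Ideal.eq_bot_of_comap_eq_bot h)
      have hP3 : (3 : 𝓞 M) ∉ w.asIdeal.under (𝓞 M) := by
        rw [Ideal.mem_under, map_ofNat]
        exact hw3
      have hnu := ram_or (k := k) (K := K) hML w h3e hPp
      obtain ⟨q', hq', hv'⟩ := H60.valuation_conj (τ₀ : K ≃+* K) q
      have hqp := q.isPrime
      have hqp' := q'.isPrime
      have hu1 : q.asIdeal.under (𝓞 k) = (w.asIdeal.under (𝓞 M)).under (𝓞 k) := by
        rw [hw.over, Ideal.under_under, Ideal.under_under]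
      have hu2 : q'.asIdeal.under (𝓞 k) = (w.asIdeal.under (𝓞 M)).under (𝓞 k) := by
        rw [← hu1, hq']
        ext a
        rw [Ideal.mem_under, Ideal.mem_under, Ideal.mem_comap]
        have h5 : (RingOfIntegers.mapRingEquiv (τ₀ : K ≃+* K)) (algebraMap (𝓞 k) (𝓞 K) a) =
            algebraMap (𝓞 k) (𝓞 K) a := by
          apply RingOfIntegers.ext
          exact τ₀.commutes (a : k)
        rw [h5]
      have hqq : q.asIdeal = q'.asIdeal := hT _ hP0 hP3 hnu q.asIdeal q'.asIdeal hu1 hu2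
      have hqq' : q' = q := HeightOneSpectrum.ext hqq.symm
      have h6 : q.valuation K (τ₀ z₀) = q.valuation K z₀ := by
        have := hv' z₀
        rw [hqq'] at this
        exact this
      have h7 : q.valuation K z₀ ^ 2 = (q.valuation K (algebraMap k K d)) ^ 3 := by
        have h9 := congrArg (q.valuation K) hd
        rw [map_pow, map_mul, h6, ← pow_two] at h9
        exact h9
      exact cube_of_pow (by norm_num) h7
    · exact cube_of_pow h3e hp
  obtain ⟨t, ht⟩ := hW z₀ hz₀ hN hval hloc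
  apply hec (algebraMap K L t / y)
  rw [div_pow, ← map_pow, ht, hzy]
  field_simp

end Pool.Agent.LeoG.H67
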